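import Mathlib
import Pool.Agent.Lib.MP_6a62cd_co.FourDefs
import Pool.Agent.Lib.MP_6a62cd_co.FourMain

namespace Pool.Agent.Results.MP_6a62cd_co.CorrespondencePacking

open Pool.Agent.Lib.MP_6a62cd_co.Four

/-- Every 4-fold cover of every finite planar bipartite graph has a packing, and the maximum of
the correspondence packing number over all planar bipartite graphs is 4. -/
theorem result :
    (∀ (n : ℕ) (G : SimpleGraph (Fin n)), IsPlanar G → G.IsBipartite → CoverPackable G 4) ∧
    IsGreatest {m : ℕ | ∃ (n : ℕ) (G : SimpleGraph (Fin n)),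
      IsPlanar G ∧ G.IsBipartite ∧ corrPackingNumber G = m} 4 :=
  ⟨fun _ _ hp hb => Pool.Agent.Lib.MP_6a62cd_co.FourMain.planar_coverPackable hp
      (Pool.Agent.Lib.MP_6a62cd_co.FourMain.bipartite_cliqueFree hb),
    Pool.Agent.Lib.MP_6a62cd_co.FourMain.corr_max⟩

end Pool.Agent.Results.MP_6a62cd_co.CorrespondencePacking
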