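import Mathlib
import Pool.Agent.Lib.MP_6a62cd_co.FourDefs
import Pool.Agent.Lib.MP_6a62cd_co.FourMain

namespace Pool.Agent.Results.MP_6a62cd_co.ListPacking

open Pool.Agent.Lib.MP_6a62cd_co.Four

/-- Every assignment of 4-element lists of every finite planar bipartite graph has a packing, and
the maximum of the list packing number over all planar bipartite graphs is 4. -/
theorem result :
    (∀ (n : ℕ) (G : SimpleGraph (Fin n)), IsPlanar G → G.IsBipartite → ListPackable G 4) ∧
    IsGreatest {m : ℕ | ∃ (n : ℕ) (G : SimpleGraph (Fin n)),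
      IsPlanar G ∧ G.IsBipartite ∧ listPackingNumber G = m} 4 :=
  ⟨fun _ _ hp hb => (Pool.Agent.Lib.MP_6a62cd_co.FourMain.planar_coverPackable hp
      (Pool.Agent.Lib.MP_6a62cd_co.FourMain.bipartite_cliqueFree hb)).listPackable,
    Pool.Agent.Lib.MP_6a62cd_co.FourMain.list_max⟩

end Pool.Agent.Results.MP_6a62cd_co.ListPacking
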