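import Mathlib
import Pool.Agent.Lib.MP_6a62cd_co.FourDefs
import Pool.Agent.Lib.MP_6a62cd_co.FourMain

namespace Pool.Agent.Results.MP_6a62cd_co.TwoForests

open Pool.Agent.Lib.MP_6a62cd_co.Four

/-- Every 4-fold cover of a finite graph whose edges are covered by two forests has a packing. -/
theorem result :
    ∀ (V : Type) [Finite V] (G F₁ F₂ : SimpleGraph V), F₁.IsAcyclic → F₂.IsAcyclic →
      G ≤ F₁ ⊔ F₂ → CoverPackable G 4 :=
  Pool.Agent.Lib.MP_6a62cd_co.FourMain.two_forests

end Pool.Agent.Results.MP_6a62cd_co.TwoForests
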